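import Pool.Agent.Helper25.HV.Rough

/-!
# HV, block RD2: the product of the three full-tuple polynomials is the resonator plus a polynomial over non-squarefree
numbers, given the expansion of one kind
-/

open Finset MeasureTheory Filter Topology

namespace Pool.Agent.Helper58.HV

open Pool.Agent.Helper69.HG Pool.Agent.Helper25.HG Pool.Agent.Helper25.HV

/-- the expansion of the full tuples of one kind -/
structure OneKind (D : Dat) (N : ℕ) (k Q : ℕ → ℝ) (C T : ℝ) (c : ℕ → ℝ) : Prop where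
  bd : ∀ n, |c n| ≤ C
  supp : ∀ n, c n ≠ 0 → n ≠ 0 ∧ (n : ℝ) ≤ T ^ ((N : ℝ) / D.S) ∧ ∀ p ∈ n.primeFactors, Adm D T p
  sq : ∀ n, Squarefree n → (∀ p ∈ n.primeFactors, Adm D T p) → c n = wtD D T k Q n
  dp : ∀ t : ℝ, RFf D N k Q T t = DP ⌊T ^ ((N : ℝ) / D.S)⌋₊ (fun n => (c n : ℂ)) t

/-- the one-kind lemma -/
def OneKinds : Prop := ∀ D : Dat, Ok D → ∀ (N : ℕ) (k Q : ℕ → ℝ), (∀ i, 0 ≤ k i ∧ k i ≤ 2) → (∀ n, N < n → Q n = 0) →
  ∃ C : ℝ, 0 < C ∧ ∀ T : ℝ, 1 < T → ∃ c : ℕ → ℝ, OneKind D N k Q C T c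

lemma cc_ne {a r : ℕ → ℂ} {n : ℕ} (h : cc a r n ≠ 0) : n ≠ 0 ∧ ∃ d q, d * q = n ∧ a d ≠ 0 ∧ r q ≠ 0 := by
  rw [cc_anti] at h
  obtain ⟨x, hx, hne⟩ := Finset.exists_ne_zero_of_sum_ne_zero h
  obtain ⟨h1, h2⟩ := Nat.mem_divisorsAntidiagonal.1 hx
  exact ⟨h2, x.1, x.2, h1, left_ne_zero_of_mul hne, right_ne_zero_of_mul hne⟩

lemma cc_bd {K : ℕ} {T : ℝ}
    (hK : ∀ N : ℕ, 1 ≤ N → (N : ℝ) ≤ T → ∀ S : Finset ℕ, (∀ h ∈ S, h ∣ N ∧ RgV T h) → S.card ≤ K)
    {a r : ℕ → ℂ} {A R : ℝ} (hA : ∀ n, ‖a n‖ ≤ A) (hR : ∀ n, ‖r n‖ ≤ R) (ha : ∀ n, a n ≠ 0 → RgV T n)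
    (hs : ∀ n, cc a r n ≠ 0 → (n : ℝ) ≤ T) (n : ℕ) : ‖cc a r n‖ ≤ K * (A * R) := by
  classical
  have hA0 : 0 ≤ A := (norm_nonneg _).trans (hA 0)
  have hR0 : 0 ≤ R := (norm_nonneg _).trans (hR 0)
  by_cases h : cc a r n = 0
  · rw [h, norm_zero]; positivity
  · obtain ⟨hn, -⟩ := cc_ne h
    have hnT := hs n h
    have e : cc a r n = ∑ d ∈ n.divisors.filter (fun d => a d ≠ 0), a d * r (n / d) := by
      unfold cc
      rw [Finset.sum_filter]
      refine Finset.sum_congr rfl fun d _ => ?_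
      split_ifs with hd
      · rfl
      · rw [not_not] at hd
        rw [hd, zero_mul]
    rw [e]
    refine (norm_sum_le _ _).trans ?_
    refine (Finset.sum_le_sum (g := fun _ => A * R) fun d _ => ?_).trans ?_
    · rw [norm_mul]
      exact mul_le_mul (hA d) (hR _) (norm_nonneg _) hA0
    · rw [Finset.sum_const, nsmul_eq_mul]
      refine mul_le_mul_of_nonneg_right ?_ (by positivity)
      have := hK n (Nat.one_le_iff_ne_zero.2 hn) hnT (n.divisors.filter (fun d => a d ≠ 0)) (by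
        intro h hh
        obtain ⟨h1, h2⟩ := Finset.mem_filter.1 hh
        exact ⟨Nat.dvd_of_mem_divisors h1, ha _ h2⟩)
      exact_mod_cast this

lemma floor_mul {T a b c : ℝ} (hT : 0 < T) (h : a + b = c) : ⌊T ^ a⌋₊ * ⌊T ^ b⌋₊ ≤ ⌊T ^ c⌋₊ := by
  apply Nat.le_floor
  push_cast
  calc (⌊T ^ a⌋₊ : ℝ) * ⌊T ^ b⌋₊ ≤ T ^ a * T ^ b :=
        mul_le_mul (Nat.floor_le (by positivity)) (Nat.floor_le (by positivity)) (Nat.cast_nonneg _) (by positivity)
    _ = T ^ c := by rw [← Real.rpow_add hT, h]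

section
variable {D : Dat} {T C1 C2 : ℝ} {c1 c2 : ℕ → ℝ}

/-- the convolution of the two kinds on squarefree numbers -/
lemma cc_sq (h1 : OneKind D D.N1 D.k1 D.Q1 C1 T c1) (h2 : OneKind D D.N2 D.k2 D.Q2 C2 T c2) {d : ℕ} (hd : Squarefree d) :
    cc (fun n => (c1 n : ℂ)) (fun n => (c2 n : ℂ)) d = (rD D T d : ℂ) := by
  by_cases h : ∀ p ∈ d.primeFactors, Adm D T p
  · rw [rD_eq hd h]
    unfold cc
    rw [Complex.ofReal_sum]
    refine Finset.sum_congr rfl fun e he => ?_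
    have hed := Nat.dvd_of_mem_divisors he
    have hqd : d / e ∣ d := Nat.div_dvd_of_dvd hed
    show (c1 e : ℂ) * (c2 (d / e) : ℂ) = _
    rw [h1.sq e (hd.squarefree_of_dvd hed) fun p hp => h p (Nat.primeFactors_mono hed hd.ne_zero hp),
      h2.sq (d / e) (hd.squarefree_of_dvd hqd) fun p hp => h p (Nat.primeFactors_mono hqd hd.ne_zero hp),
      Complex.ofReal_mul]
  · have e1 : rD D T d = 0 := by
      unfold rD
      rw [if_neg fun h' => h h'.2]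
    rw [e1, Complex.ofReal_zero]
    by_contra hne
    obtain ⟨_, a, b, hab, ha, hb⟩ := cc_ne hne
    have ha' : c1 a ≠ 0 := fun h0 => ha (by simp [h0])
    have hb' : c2 b ≠ 0 := fun h0 => hb (by simp [h0])
    obtain ⟨a0, _, a2⟩ := h1.supp a ha'
    obtain ⟨b0, _, b2⟩ := h2.supp b hb'
    apply h
    intro p hp
    rw [← hab, Nat.primeFactors_mul a0 b0, Finset.mem_union] at hp
    rcases hp with hp | hp
    · exact a2 p hp
    · exact b2 p hp

end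

/-- the small primes: one kind only -/
lemma c3_sq {T C : ℝ} {c : ℕ → ℝ} (h : OneKind dB dB.N1 dB.k1 dB.Q1 C T c) {q : ℕ} (hq : Squarefree q) :
    c q = rD dB T q := by
  by_cases hp : ∀ p ∈ q.primeFactors, Adm dB T p
  · rw [rD_eq hq hp, h.sq q hq hp, Finset.sum_eq_single_of_mem q (Nat.mem_divisors_self q hq.ne_zero)]
    · rw [Nat.div_self (Nat.pos_of_ne_zero hq.ne_zero)]
      have : wtD dB T dB.k2 dB.Q2 1 = 1 := by
        unfold wtD
        rw [Nat.primeFactors_one, Finset.prod_empty, Finset.sum_empty, one_mul]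
        show (if (0:ℕ) = 0 then (1:ℝ) else 0) = 1
        exact if_pos rfl
      rw [this, mul_one]
    · intro e he hne
      have hed := Nat.dvd_of_mem_divisors he
      have h3 := Nat.div_mul_cancel hed
      have hne1 : q / e ≠ 1 := by
        intro h1
        rw [h1, one_mul] at h3
        exact hne h3
      have hne0 : q / e ≠ 0 := by
        intro h1
        rw [h1, zero_mul] at h3
        exact hq.ne_zero h3.symm
      obtain ⟨p, hp1⟩ : (q / e).primeFactors.Nonempty := by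
        rw [Nat.nonempty_primeFactors]
        have := Nat.pos_of_ne_zero hne0
        exact lt_of_le_of_ne this (Ne.symm hne1)
      have : wtD dB T dB.k2 dB.Q2 (q / e) = 0 := by
        unfold wtD
        rw [Finset.prod_eq_zero hp1 (by rfl), zero_mul]
      rw [this, mul_zero]
  · have e1 : rD dB T q = 0 := by
      unfold rD
      rw [if_neg fun h' => hp h'.2]
    rw [e1]
    by_contra hne
    exact hp (h.supp q hne).2.2

/-- **Block RD2 from the one-kind lemma.** -/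
theorem rd2_of (H : OneKinds) : RD2 := by
  classical
  obtain ⟨C1, hC1, H1⟩ := H dA okA dA.N1 dA.k1 dA.Q1 okA.k1 okA.Q1
  obtain ⟨C2, hC2, H2⟩ := H dA okA dA.N2 dA.k2 dA.Q2 okA.k2 okA.Q2
  obtain ⟨C3, hC3, H3⟩ := H dB okB dB.N1 dB.k1 dB.Q1 okB.k1 okB.Q1
  obtain ⟨C4, hC4, H4⟩ := rr2_bd
  obtain ⟨K, hK1, hK⟩ := card_roughK
  refine ⟨K * (K * (C1 * C2) * C3) + C4, 2, by positivity, fun T hT => ?_⟩
  have hT1 : 1 < T := by linarith
  have hT0 : 0 < T := by linarith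
  obtain ⟨c1, h1⟩ := H1 T hT1
  obtain ⟨c2, h2⟩ := H2 T hT1
  obtain ⟨c3, h3⟩ := H3 T hT1
  have e1 : ((dA.N1 : ℕ) : ℝ) / dA.S = 28 / 84 := by unfold dA; norm_num
  have e2 : ((dA.N2 : ℕ) : ℝ) / dA.S = 12 / 84 := by unfold dA; norm_num
  have e3 : ((dB.N1 : ℕ) : ℝ) / dB.S = 23 / 1008 := by unfold dB; norm_num
  set a1 : ℕ → ℂ := fun n => (c1 n : ℂ) with ha1
  set a2 : ℕ → ℂ := fun n => (c2 n : ℂ) with ha2
  set a3 : ℕ → ℂ := fun n => (c3 n : ℂ) with ha3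
  have n1 : ∀ n, a1 n ≠ 0 → n ≠ 0 ∧ (n : ℝ) ≤ T ^ (28 / 84 : ℝ) ∧ ∀ p ∈ n.primeFactors, Adm dA T p := fun n hn => by
    have := h1.supp n fun h0 => hn (by simp [ha1, h0])
    rwa [e1] at this
  have n2 : ∀ n, a2 n ≠ 0 → n ≠ 0 ∧ (n : ℝ) ≤ T ^ (12 / 84 : ℝ) ∧ ∀ p ∈ n.primeFactors, Adm dA T p := fun n hn => by
    have := h2.supp n fun h0 => hn (by simp [ha2, h0])
    rwa [e2] at this
  have n3 : ∀ n, a3 n ≠ 0 → n ≠ 0 ∧ (n : ℝ) ≤ T ^ (23 / 1008 : ℝ) ∧ ∀ p ∈ n.primeFactors, Adm dB T p := fun n hn => by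
    have := h3.supp n fun h0 => hn (by simp [ha3, h0])
    rwa [e3] at this
  have b1 : ∀ n, ‖a1 n‖ ≤ C1 := fun n => by
    rw [ha1]; simpa [Complex.norm_real] using h1.bd n
  have b2 : ∀ n, ‖a2 n‖ ≤ C2 := fun n => by
    rw [ha2]; simpa [Complex.norm_real] using h2.bd n
  have b3 : ∀ n, ‖a3 n‖ ≤ C3 := fun n => by
    rw [ha3]; simpa [Complex.norm_real] using h3.bd n
  have s12 : ∀ n, cc a1 a2 n ≠ 0 → n ≠ 0 ∧ (n : ℝ) ≤ T ^ (40 / 84 : ℝ) ∧ ∀ p ∈ n.primeFactors, Adm dA T p := by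
    intro n hn
    obtain ⟨hn0, d, q, hdq, hd, hq⟩ := cc_ne hn
    obtain ⟨d0, d1, d2⟩ := n1 d hd
    obtain ⟨q0, q1, q2⟩ := n2 q hq
    refine ⟨hn0, ?_, ?_⟩
    · rw [← hdq]
      push_cast
      calc (d : ℝ) * q ≤ T ^ (28 / 84 : ℝ) * T ^ (12 / 84 : ℝ) := mul_le_mul d1 q1 (Nat.cast_nonneg _) (by positivity)
        _ = T ^ (40 / 84 : ℝ) := by rw [← Real.rpow_add hT0]; norm_num
    · intro p hp
      rw [← hdq, Nat.primeFactors_mul d0 q0, Finset.mem_union] at hp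
      rcases hp with hp | hp
      · exact d2 p hp
      · exact q2 p hp
  have s123 : ∀ n, cc (cc a1 a2) a3 n ≠ 0 → n ≠ 0 ∧ (n : ℝ) ≤ T ^ (503 / 1008 : ℝ) ∧ ∀ p ∈ n.primeFactors, Big T p := by
    intro n hn
    obtain ⟨hn0, d, q, hdq, hd, hq⟩ := cc_ne hn
    obtain ⟨d0, d1, d2⟩ := s12 d hd
    obtain ⟨q0, q1, q2⟩ := n3 q hq
    refine ⟨hn0, ?_, ?_⟩
    · rw [← hdq]
      push_cast
      calc (d : ℝ) * q ≤ T ^ (40 / 84 : ℝ) * T ^ (23 / 1008 : ℝ) := mul_le_mul d1 q1 (Nat.cast_nonneg _) (by positivity)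
        _ = T ^ (503 / 1008 : ℝ) := by rw [← Real.rpow_add hT0]; norm_num
    · intro p hp
      rw [← hdq, Nat.primeFactors_mul d0 q0, Finset.mem_union] at hp
      rcases hp with hp | hp
      · exact (d2 p hp).big okA hT1
      · exact (q2 p hp).big okB hT1
  have hle : ∀ x : ℝ, x ≤ 1 → T ^ x ≤ T := fun x hx => by
    conv_rhs => rw [← Real.rpow_one T]
    exact Real.rpow_le_rpow_of_exponent_le hT1.le hx
  have b12 : ∀ n, ‖cc a1 a2 n‖ ≤ K * (C1 * C2) := cc_bd (hK T hT1) b1 b2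
    (fun n hn => ⟨(n1 n hn).1, fun p hp => (((n1 n hn).2.2 p hp).big okA hT1).1⟩)
    fun n hn => (s12 n hn).2.1.trans (hle _ (by norm_num))
  have b123 : ∀ n, ‖cc (cc a1 a2) a3 n‖ ≤ K * (K * (C1 * C2) * C3) := cc_bd (hK T hT1) b12 b3
    (fun n hn => ⟨(s12 n hn).1, fun p hp => (((s12 n hn).2.2 p hp).big okA hT1).1⟩)
    fun n hn => (s123 n hn).2.1.trans (hle _ (by norm_num))
  -- squarefree numbers
  have sqf : ∀ n, Squarefree n → cc (cc a1 a2) a3 n = (rr2 T n : ℂ) := by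
    intro n hn
    unfold rr2 conv
    rw [Complex.ofReal_sum]
    rw [show cc (cc a1 a2) a3 n = ∑ d ∈ n.divisors, cc a1 a2 d * a3 (n / d) from rfl]
    refine Finset.sum_congr rfl fun d hd => ?_
    have hdn := Nat.dvd_of_mem_divisors hd
    rw [cc_sq h1 h2 (hn.squarefree_of_dvd hdn), Complex.ofReal_mul, ha3]
    simp only
    rw [c3_sq h3 (hn.squarefree_of_dvd (Nat.div_dvd_of_dvd hdn))]
  refine ⟨fun n => cc (cc a1 a2) a3 n - (rr2 T n : ℂ), fun n => ?_, fun n hn => ?_, fun t => ?_⟩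
  · refine (norm_sub_le _ _).trans (add_le_add (b123 n) ?_)
    rw [Complex.norm_real, Real.norm_eq_abs]
    exact H4 T hT1 n
  · have hsq : ¬ Squarefree n := fun h => hn (by simp only; rw [sqf n h, sub_self])
    have hr : rr2 T n = 0 := by
      by_contra h
      exact hsq (rr2_supp hT1 h).2.1
    have hne : cc (cc a1 a2) a3 n ≠ 0 := fun h => hn (by simp only; rw [h, hr]; simp)
    obtain ⟨g0, _, g2⟩ := s123 n hne
    exact ⟨g0, hsq, g2⟩
  · have z1 : ∀ n, ⌊T ^ (28 / 84 : ℝ)⌋₊ < n → a1 n = 0 := fun n hn => by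
      by_contra h
      exact absurd (Nat.le_floor (n1 n h).2.1) (not_le.2 hn)
    have z2 : ∀ n, ⌊T ^ (12 / 84 : ℝ)⌋₊ < n → a2 n = 0 := fun n hn => by
      by_contra h
      exact absurd (Nat.le_floor (n2 n h).2.1) (not_le.2 hn)
    have z3 : ∀ n, ⌊T ^ (23 / 1008 : ℝ)⌋₊ < n → a3 n = 0 := fun n hn => by
      by_contra h
      exact absurd (Nat.le_floor (n3 n h).2.1) (not_le.2 hn)
    have z12 : ∀ n, ⌊T ^ (40 / 84 : ℝ)⌋₊ < n → cc a1 a2 n = 0 := fun n hn => by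
      by_contra h
      exact absurd (Nat.le_floor (s12 n h).2.1) (not_le.2 hn)
    have d1 := h1.dp t
    have d2 := h2.dp t
    have d3 := h3.dp t
    rw [e1] at d1
    rw [e2] at d2
    rw [e3] at d3
    unfold RF2
    rw [d1, d2, d3, DP_mul z1 z2 (floor_mul hT0 (by norm_num : (28 / 84 : ℝ) + 12 / 84 = 40 / 84)) t,
      DP_mul z12 z3 (floor_mul hT0 (by norm_num : (40 / 84 : ℝ) + 23 / 1008 = 503 / 1008)) t]
    unfold XR2
    refine DP_congr (fun n _ _ => ?_) t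
    ring

end Pool.Agent.Helper58.HV
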