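import Pool.Agent.Helper58.HV.FL

/-!
# Large gaps, `λ = 13/5`: block RSd
-/

open Finset Filter Topology Polynomial MeasureTheory

namespace Pool.Agent.Helper58.HV

open Pool.Agent.Helper69.HG Pool.Agent.Helper51.HG Pool.Agent.Helper25.HV
open Pool.Agent.Helper47.HV (sD decouple decouple_err)

lemma bdd_of_supp58 {Q : ℕ → ℝ} {N : ℕ} (h : ∀ n, N < n → Q n = 0) (n : ℕ) :
    |Q n| ≤ ∑ m ∈ range (N + 1), |Q m| := by
  rcases lt_or_ge N n with h1 | h1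
  · rw [h n h1, abs_zero]
    exact Finset.sum_nonneg fun _ _ => abs_nonneg _
  · exact Finset.single_le_sum (f := fun m => |Q m|) (fun _ _ => abs_nonneg _) (mem_range.2 (by omega))

lemma F8_bdd {D : Dat} (hD : Ok D) : ∃ M : ℝ, ∀ v, |F8 D v| ≤ M := by
  obtain ⟨M1, h1⟩ : ∃ M1 : ℝ, ∀ n, |D.Q1 n| ≤ M1 := ⟨_, bdd_of_supp58 hD.Q1⟩
  obtain ⟨M2, h2⟩ : ∃ M2 : ℝ, ∀ n, |D.Q2 n| ≤ M2 := ⟨_, bdd_of_supp58 hD.Q2⟩
  have m1 : 0 ≤ M1 := (abs_nonneg _).trans (h1 0)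
  have m2 : 0 ≤ M2 := (abs_nonneg _).trans (h2 0)
  refine ⟨M1 * M2 * (M1 * M2), fun v => ?_⟩
  unfold F8
  rw [abs_mul, abs_mul, abs_mul]
  have e1 := h1 (v 0 + v 1 + v 4)
  have e2 := h2 (v 2 + v 3 + v 6)
  have e3 := h1 (v 0 + v 2 + v 5)
  have e4 := h2 (v 1 + v 3 + v 7)
  gcongr

lemma F8_box {D : Dat} (hD : Ok D) (v : Fin 8 → ℕ) (h : ∃ θ, 65 ≤ v θ) : F8 D v = 0 := by
  obtain ⟨θ, hθ⟩ := h
  have hN1 := hD.N1
  have hN2 := hD.N2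
  unfold F8
  fin_cases θ
  · have h0 : 65 ≤ v 0 := hθ
    rw [hD.Q1 (v 0 + v 1 + v 4) (by omega)]; ring
  · have h0 : 65 ≤ v 1 := hθ
    rw [hD.Q1 (v 0 + v 1 + v 4) (by omega)]; ring
  · have h0 : 65 ≤ v 2 := hθ
    rw [hD.Q2 (v 2 + v 3 + v 6) (by omega)]; ring
  · have h0 : 65 ≤ v 3 := hθ
    rw [hD.Q2 (v 2 + v 3 + v 6) (by omega)]; ring
  · have h0 : 65 ≤ v 4 := hθ
    rw [hD.Q1 (v 0 + v 1 + v 4) (by omega)]; ring
  · have h0 : 65 ≤ v 5 := hθ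
    rw [hD.Q1 (v 0 + v 2 + v 5) (by omega)]; ring
  · have h0 : 65 ≤ v 6 := hθ
    rw [hD.Q2 (v 2 + v 3 + v 6) (by omega)]; ring
  · have h0 : 65 ≤ v 7 := hθ
    rw [hD.Q2 (v 1 + v 3 + v 7) (by omega)]; ring

lemma kf_bd {D : Dat} (hD : Ok D) (θ : Fin 8) (i : ℕ) : 0 ≤ kf D θ i ∧ kf D θ i ≤ 4 := by
  obtain ⟨a1, a2⟩ := hD.k1 i
  obtain ⟨b1, b2⟩ := hD.k2 i
  have h11 : D.k1 i * D.k1 i ≤ 4 := by nlinarith
  have h12 : D.k1 i * D.k2 i ≤ 4 := by nlinarith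
  have h22 : D.k2 i * D.k2 i ≤ 4 := by nlinarith
  have g11 : 0 ≤ D.k1 i * D.k1 i := by positivity
  have g12 : 0 ≤ D.k1 i * D.k2 i := by positivity
  have g22 : 0 ≤ D.k2 i * D.k2 i := by positivity
  fin_cases θ
  · exact ⟨g11, h11⟩
  · exact ⟨g12, h12⟩
  · exact ⟨g12, h12⟩
  · exact ⟨g22, h22⟩
  · exact ⟨a1, by show D.k1 i ≤ 4; linarith⟩
  · exact ⟨a1, by show D.k1 i ≤ 4; linarith⟩
  · exact ⟨b1, by show D.k2 i ≤ 4; linarith⟩
  · exact ⟨b1, by show D.k2 i ≤ 4; linarith⟩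

lemma ex8_add (x x' L : ℝ) (θ : Fin 8) : ex8 (1 / 2 + x / L) (1 / 2 + x' / L) θ = 1 / 2 + ex8 x x' θ / L := by
  fin_cases θ <;> rfl

lemma ex8_two (x x' : ℝ) (θ : Fin 8) : ex8 (2 * x) (2 * x') θ = 2 * ex8 x x' θ := by
  fin_cases θ <;> rfl

lemma ex8_nonneg {x x' : ℝ} (hx : 0 ≤ x) (hx' : 0 ≤ x') (θ : Fin 8) : 0 ≤ ex8 x x' θ := by
  fin_cases θ
  · exact hx
  · exact hx
  · exact hx
  · exact hx
  · exact hx'
  · exact hx'
  · exact hx'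
  · exact hx'

lemma LLD_eqK {D : Dat} (hD : Ok D) {K : ℕ} (hK : K = 65) (y z : ℝ) :
    ∑ v ∈ Fintype.piFinset (fun _ : Fin 8 => range K), F8 D v * ∏ θ, GD D (kf D θ) (ex8 y z θ) (v θ) = LLD D y z := by
  subst hK
  exact LLD_eq hD y z

/-- the limit of `CFG` -/
theorem CFG_tendsto {D : Dat} (hD : Ok D) {x x' : ℝ} (hx : 0 ≤ x) (hx' : 0 ≤ x') :
    Tendsto (fun T : ℝ => CFG D T (1 / 2 + x / Real.log T) (1 / 2 + x' / Real.log T)) atTop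
      (𝓝 (LLD D (2 * x) (2 * x'))) := by
  obtain ⟨B, hB0, hB⟩ := AAD_bdd hD
  obtain ⟨M, hM⟩ := F8_bdd hD
  have hM0 : 0 ≤ M := (abs_nonneg _).trans (hM 0)
  obtain ⟨K, hK⟩ : ∃ K : ℕ, K = 65 := ⟨_, rfl⟩
  set w : ℝ → Fin 8 → ℕ → ℝ := fun T θ p => kf D θ (ixD D T p) * (p : ℝ) ^ (-2 * (1 / 2 + ex8 x x' θ / Real.log T)) with hw
  have h1 : Tendsto (fun T : ℝ => ∑ v ∈ Fintype.piFinset (fun _ : Fin 8 => range K),
      F8 D v * ∏ θ, sD (AAD D T) (ixD D T) (w T θ) (v θ)) atTop (𝓝 (LLD D (2 * x) (2 * x'))) := by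
    rw [← LLD_eqK hD hK]
    refine tendsto_finsetSum _ fun v hv => tendsto_const_nhds.mul (tendsto_finsetProd _ fun θ _ => ?_)
    rw [ex8_two]
    rw [Fintype.mem_piFinset] at hv
    have hv' := hv θ
    rw [mem_range] at hv'
    exact tendsto_sD hD (fun i => kf_bd hD θ i) (ex8_nonneg hx hx' θ) (hK ▸ hv')
  have h2 : Tendsto (fun T : ℝ => CFG D T (1 / 2 + x / Real.log T) (1 / 2 + x' / Real.log T) -
      ∑ v ∈ Fintype.piFinset (fun _ : Fin 8 => range K), F8 D v * ∏ θ, sD (AAD D T) (ixD D T) (w T θ) (v θ))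
      atTop (𝓝 0) := by
    have he : Tendsto (fun T : ℝ => M * (Real.exp (Fintype.card (Fin 8) * 4 * B) *
        ((Fintype.card (Fin 8) * 4) ^ 2 * B) / T ^ D.lo)) atTop (𝓝 0) := by
      have h3 : Tendsto (fun T : ℝ => (T ^ D.lo)⁻¹) atTop (𝓝 0) :=
        (tendsto_rpow_atTop (lo_pos hD)).inv_tendsto_atTop
      have := h3.const_mul (M * (Real.exp (Fintype.card (Fin 8) * 4 * B) * ((Fintype.card (Fin 8) * 4) ^ 2 * B)))
      rw [mul_zero] at this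
      refine this.congr fun T => ?_
      ring
    refine squeeze_zero_norm' ?_ he
    filter_upwards [hB, eventually_gt_atTop (1 : ℝ)] with T hBT hT
    have hL : 0 < Real.log T := Real.log_pos hT
    have hT0 : (0 : ℝ) < T := by linarith
    have hσ : ∀ θ, (1 / 2 : ℝ) ≤ 1 / 2 + ex8 x x' θ / Real.log T := fun θ => by
      have : 0 ≤ ex8 x x' θ / Real.log T := div_nonneg (ex8_nonneg hx hx' θ) hL.le
      linarith
    have hw0 : ∀ θ, ∀ p ∈ AAD D T, 0 ≤ w T θ p := fun θ p hp =>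
      mul_nonneg (kf_bd hD θ _).1 (AAD_pow hp (hσ θ)).1
    have hw1 : ∀ θ, ∀ p ∈ AAD D T, w T θ p ≤ 4 / p := fun θ p hp => by
      have : (4 : ℝ) / p = 4 * (1 / p) := by ring
      rw [this]
      exact mul_le_mul (kf_bd hD θ _).2 (AAD_pow hp (hσ θ)).2 (AAD_pow hp (hσ θ)).1 (by norm_num)
    have hd := decouple (AAD D T) (ixD D T) (w T) hw0 (F8 D) hM (K := K) (by rw [hK]; exact F8_box hD)
    have hde := decouple_err (AAD D T) (w T) (c := 4) (y := T ^ D.lo) (Bd := B) (by norm_num)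
      (Real.rpow_pos_of_pos hT0 _) hw0 hw1 (fun p hp => (AAD_size hp).2) hBT
    rw [Real.norm_eq_abs, CFG_eq]
    simp only [ex8_add]
    refine hd.trans (mul_le_mul_of_nonneg_left hde hM0)
  have := h2.add h1
  simpa using this

/-- **block RSd** -/
theorem rsd : RSd := by
  intro D hD x hx
  refine ⟨CFG_tendsto hD hx.le hx.le, ?_⟩
  have h := CFG_tendsto hD hx.le (le_refl (0 : ℝ))
  simpa using h

end Pool.Agent.Helper58.HV
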