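import Pool.Agent.Helper25.HV.Base
import Pool.Agent.Helper58.HV.RSd
import Pool.Agent.Helper57.HL.Fb

/-!
# Large gaps, `λ = 13/5`: block RS2 from RSc and RSd
-/

open Finset Filter Topology Polynomial MeasureTheory

namespace Pool.Agent.Helper58.HV

open Pool.Agent.Helper69.HG Pool.Agent.Helper25.HV

theorem Ql_conv58 {X X₁ X₂ : ℕ} (hX : X₁ * X₂ ≤ X) {a r : ℕ → ℝ} (ha : ∀ n, a n ≠ 0 → n ≤ X₁)
    (hr : ∀ n, r n ≠ 0 → n ≤ X₂) (hc : ∀ m n, a m ≠ 0 → r n ≠ 0 → Nat.Coprime m n) (σ : ℝ) :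
    Ql X (conv a r) σ = Ql X₁ a σ * Ql X₂ r σ := by
  unfold Ql
  refine Pool.Agent.Helper57.HL.bil57 hX ha hr (fun h k => (Nat.lcm h k : ℝ) ^ (-2 * σ)) ?_
  intro m m' n n' hm hm' hn hn' am am' rn rn'
  have e := Pool.Agent.HG5.lcm_mul5 (hc _ _ am rn) (hc _ _ am rn') (hc _ _ am' rn) (hc _ _ am' rn')
  rw [e]
  push_cast
  exact Real.mul_rpow (by positivity) (by positivity)

theorem Qg_conv58 {X X₁ X₂ : ℕ} (hX : X₁ * X₂ ≤ X) {a r : ℕ → ℝ} (ha : ∀ n, a n ≠ 0 → n ≤ X₁)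
    (hr : ∀ n, r n ≠ 0 → n ≤ X₂) (hc : ∀ m n, a m ≠ 0 → r n ≠ 0 → Nat.Coprime m n) (σ : ℝ) :
    Qg X (conv a r) σ = Qg X₁ a σ * Qg X₂ r σ := by
  unfold Qg
  refine Pool.Agent.Helper57.HL.bil57 hX ha hr (fun h k => (Nat.gcd h k : ℝ) ^ (1 - 2 * σ) / Nat.lcm h k) ?_
  intro m m' n n' hm hm' hn hn' am am' rn rn'
  rw [Finset.mem_Icc] at hm hm' hn hn'
  have c1 := hc _ _ am rn
  have c2 := hc _ _ am rn'
  have c3 := hc _ _ am' rn
  have c4 := hc _ _ am' rn'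
  have e := Pool.Agent.HG5.lcm_mul5 c1 c2 c3 c4
  have e' := Pool.Agent.Helper57.HL.gcd_mul57 (by omega) (by omega) (by omega) (by omega) c1 c2 c3 c4
  rw [e, e']
  push_cast
  rw [Real.mul_rpow (by positivity) (by positivity)]
  exact mul_div_mul_comm _ _ _ _

/-- the resonator sums from the two kinds -/
theorem rs2_of (hA : Ok dA) (hB : Ok dB)
    (sA : ∀ T : ℝ, 1 < T → ∀ n, rD dA T n ≠ 0 → n ≤ ⌊T ^ (40 / 84 : ℝ)⌋₊)
    (sB : ∀ T : ℝ, 1 < T → ∀ n, rD dB T n ≠ 0 → n ≤ ⌊T ^ (23 / 1008 : ℝ)⌋₊)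
    (cop : ∀ T : ℝ, 1 < T → ∀ m n, rD dA T m ≠ 0 → rD dB T n ≠ 0 → Nat.Coprime m n)
    (hc : RSc) (hd : RSd) : RS2 := by
  have hX : ∀ T : ℝ, 1 < T → ⌊T ^ (40 / 84 : ℝ)⌋₊ * ⌊T ^ (23 / 1008 : ℝ)⌋₊ ≤ XR2 T := by
    intro T hT
    have hT0 : (0 : ℝ) < T := by linarith
    unfold XR2
    apply Nat.le_floor
    push_cast
    have e1 := Nat.floor_le (Real.rpow_nonneg hT0.le (40 / 84 : ℝ))
    have e2 := Nat.floor_le (Real.rpow_nonneg hT0.le (23 / 1008 : ℝ))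
    calc (⌊T ^ (40 / 84 : ℝ)⌋₊ : ℝ) * ⌊T ^ (23 / 1008 : ℝ)⌋₊ ≤ T ^ (40 / 84 : ℝ) * T ^ (23 / 1008 : ℝ) :=
          mul_le_mul e1 e2 (by positivity) (by positivity)
      _ = T ^ (503 / 1008 : ℝ) := by
          rw [← Real.rpow_add hT0]; norm_num
  intro x hx
  have hA' := hd dA hA x hx
  have hB' := hd dB hB x hx
  constructor
  · have h1 : Tendsto (fun T : ℝ => CFG dA T (1 / 2 + x / Real.log T) (1 / 2 + x / Real.log T) *
        CFG dB T (1 / 2 + x / Real.log T) (1 / 2 + x / Real.log T)) atTop (𝓝 (AL x)) := hA'.1.mul hB'.1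
    refine h1.congr' ?_
    filter_upwards [eventually_gt_atTop (1 : ℝ)] with T hT
    unfold rr2
    rw [Ql_conv58 (hX T hT) (sA T hT) (sB T hT) (cop T hT), (hc dA hA T hT _ (sA T hT) _).1,
      (hc dB hB T hT _ (sB T hT) _).1]
  · have h1 : Tendsto (fun T : ℝ => CFG dA T (1 / 2 + x / Real.log T) (1 / 2) *
        CFG dB T (1 / 2 + x / Real.log T) (1 / 2)) atTop (𝓝 (AG x)) := hA'.2.mul hB'.2
    refine h1.congr' ?_
    filter_upwards [eventually_gt_atTop (1 : ℝ)] with T hT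
    unfold rr2
    rw [Qg_conv58 (hX T hT) (sA T hT) (sB T hT) (cop T hT), (hc dA hA T hT _ (sA T hT) _).2,
      (hc dB hB T hT _ (sB T hT) _).2]

/-- **block RS2** -/
theorem rs2 (hc : RSc) (hd : RSd) : RS2 :=
  rs2_of okA okB (fun _ hT _ h => Nat.le_floor (lenA hT h)) (fun _ hT _ h => Nat.le_floor (lenB hT h))
    (fun _ hT _ _ hm hn => copAB hT hm hn) hc hd

/-- **block RS2** from RSc -/
theorem rs2_of_rsc (hc : RSc) : RS2 := rs2 hc rsd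

end Pool.Agent.Helper58.HV
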