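import Pool.Agent.Helper58.HV.SD

/-!
# Large gaps, `λ = 13/5`: the eight states, `CFG` over `Option (Fin 8)`, the limit functional as a sum over `Fin 8 → ℕ`
-/

open Finset Filter Topology Polynomial MeasureTheory

namespace Pool.Agent.Helper58.HV

open Pool.Agent.Helper69.HG Pool.Agent.Helper51.HG Pool.Agent.Helper25.HV

/-- the eight states -/
def st8 : Fin 8 → Fin 3 × Fin 3 := ![(1, 1), (1, 2), (2, 1), (2, 2), (1, 0), (0, 1), (2, 0), (0, 2)]

/-- all states -/
def st9 (o : Option (Fin 8)) : Fin 3 × Fin 3 := o.elim (0, 0) st8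

lemma st9_bij : Function.Bijective st9 := by decide

/-- prime weights of the states -/
noncomputable def kf (D : Dat) : Fin 8 → ℕ → ℝ :=
  ![fun i => D.k1 i * D.k1 i, fun i => D.k1 i * D.k2 i, fun i => D.k1 i * D.k2 i, fun i => D.k2 i * D.k2 i,
    D.k1, D.k1, D.k2, D.k2]

/-- the function of the total indices -/
noncomputable def F8 (D : Dat) (v : Fin 8 → ℕ) : ℝ :=
  D.Q1 (v 0 + v 1 + v 4) * D.Q2 (v 2 + v 3 + v 6) * (D.Q1 (v 0 + v 2 + v 5) * D.Q2 (v 1 + v 3 + v 7))

/-- the exponents -/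
noncomputable def ex8 (σ τ : ℝ) : Fin 8 → ℝ := ![σ, σ, σ, σ, τ, τ, τ, τ]

lemma WD_st8 (D : Dat) (T σ τ : ℝ) (θ : Fin 8) (p : ℕ) :
    WD D T σ τ (st8 θ) p = kf D θ (ixD D T p) * (p : ℝ) ^ (-2 * ex8 σ τ θ) := by
  fin_cases θ <;> simp [WD, kk, st8, kf, ex8, mul_comm]

lemma WD_zero (D : Dat) (T σ τ : ℝ) (p : ℕ) : WD D T σ τ (0, 0) p = 1 := by
  simp [WD]

/-- `CFG` over `Option (Fin 8)` -/
lemma CFG_eq (D : Dat) (T σ τ : ℝ) : CFG D T σ τ =
    ∑ e : (AAD D T) → Option (Fin 8), (∏ p : (AAD D T), (e p).elim 1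
      (fun θ => kf D θ (ixD D T p) * (p : ℝ) ^ (-2 * ex8 σ τ θ))) *
      F8 D (fun θ => ∑ p : (AAD D T), if e p = some θ then ixD D T p else 0) := by
  unfold CFG
  symm
  refine Fintype.sum_equiv (Equiv.arrowCongr (Equiv.refl _) (Equiv.ofBijective st9 st9_bij)) _ _ fun e => ?_
  have h1 : ∀ p : (AAD D T), (Equiv.arrowCongr (Equiv.refl _) (Equiv.ofBijective st9 st9_bij)) e p = st9 (e p) :=
    fun p => rfl
  have h2 : ∀ p : (AAD D T), WD D T σ τ (st9 (e p)) p = (e p).elim 1
      (fun θ => kf D θ (ixD D T p) * (p : ℝ) ^ (-2 * ex8 σ τ θ)) := by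
    intro p
    rcases h : e p with _ | θ
    · show WD D T σ τ (0, 0) p = 1
      exact WD_zero _ _ _ _ _
    · show WD D T σ τ (st8 θ) p = _
      rw [WD_st8]
      rfl
  have h3 : ∀ θ : Fin 8, (∑ p : (AAD D T), if e p = some θ then ixD D T p else 0) =
      vst D T (fun p => st9 (e p)) (st8 θ) := by
    intro θ
    unfold vst
    refine Finset.sum_congr rfl fun p _ => ?_
    have : (e p = some θ) ↔ (st9 (e p) = st8 θ) := by
      constructor
      · intro h; rw [h]; rfl
      · intro h; exact st9_bij.1 (h.trans rfl)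
    simp only [this]
  have h4 : FD D (vst D T (fun p => st9 (e p))) =
      F8 D (fun θ => ∑ p : (AAD D T), if e p = some θ then ixD D T p else 0) := by
    simp only [h3]
    rfl
  rw [← h4]
  simp only [h1]
  congr 1
  exact Finset.prod_congr rfl fun p _ => (h2 p).symm

/-! ### flattening -/

lemma sum_pi_succ58 (n : ℕ) (s : Finset ℕ) (f : (Fin (n + 1) → ℕ) → ℝ) :
    ∑ v ∈ Fintype.piFinset (fun _ : Fin (n + 1) => s), f v =
      ∑ a ∈ s, ∑ v ∈ Fintype.piFinset (fun _ : Fin n => s), f (Matrix.vecCons a v) := by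
  rw [← Finset.sum_product (s := s) (t := Fintype.piFinset (fun _ : Fin n => s))
    (f := fun x => f (Matrix.vecCons x.1 x.2))]
  refine Finset.sum_bij' (fun v _ => (v 0, fun i => v i.succ)) (fun x _ => Matrix.vecCons x.1 x.2) ?_ ?_ ?_ ?_ ?_
  · intro v hv
    rw [Fintype.mem_piFinset] at hv
    rw [Finset.mem_product, Fintype.mem_piFinset]
    exact ⟨hv 0, fun i => hv i.succ⟩
  · intro x hx
    rw [Finset.mem_product, Fintype.mem_piFinset] at hx
    rw [Fintype.mem_piFinset]
    intro i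
    refine Fin.cases ?_ (fun j => ?_) i
    · exact hx.1
    · exact hx.2 j
  · intro v _
    funext i
    refine Fin.cases ?_ (fun j => ?_) i
    · rfl
    · rfl
  · intro x _
    rfl
  · intro v _
    congr 1
    funext i
    refine Fin.cases ?_ (fun j => ?_) i
    · rfl
    · rfl

lemma sum_pi_zero58 (s : Finset ℕ) (f : (Fin 0 → ℕ) → ℝ) :
    ∑ v ∈ Fintype.piFinset (fun _ : Fin 0 => s), f v = f ![] := by
  have : Fintype.piFinset (fun _ : Fin 0 => s) = {![]} := by
    ext v
    rw [Fintype.mem_piFinset, Finset.mem_singleton]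
    constructor
    · intro _; exact Subsingleton.elim _ _
    · intro _ i; exact i.elim0
  rw [this, Finset.sum_singleton]

lemma four58 (s : Finset ℕ) (p q r t : ℕ → ℝ) (K : ℝ) :
    ∑ x ∈ s, ∑ y ∈ s, ∑ z ∈ s, ∑ w ∈ s, K * (p x * q y * r z * t w) =
      K * ((∑ x ∈ s, p x) * (∑ x ∈ s, q x) * (∑ x ∈ s, r x) * (∑ x ∈ s, t x)) := by
  simp only [← Finset.mul_sum, ← Finset.sum_mul]

/-- the limit functional as a sum over the box -/
theorem LLD_eq {D : Dat} (hD : Ok D) (y z : ℝ) :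
    ∑ v ∈ Fintype.piFinset (fun _ : Fin 8 => range 65), F8 D v * ∏ θ, GD D (kf D θ) (ex8 y z θ) (v θ) = LLD D y z := by
  have hN1 := hD.N1
  have hN2 := hD.N2
  have hP1 : ∀ s : ℕ, ∑ m ∈ range 65, GD D D.k1 z m * D.Q1 (s + m) = P1D D z s := by
    intro s
    unfold P1D
    symm
    refine Finset.sum_subset (range_mono (by omega)) fun m _ hm => ?_
    rw [mem_range, not_lt] at hm
    rw [hD.Q1 _ (by omega), mul_zero]
  have hP2 : ∀ s : ℕ, ∑ m ∈ range 65, GD D D.k2 z m * D.Q2 (s + m) = P2D D z s := by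
    intro s
    unfold P2D
    symm
    refine Finset.sum_subset (range_mono (by omega)) fun m _ hm => ?_
    rw [mem_range, not_lt] at hm
    rw [hD.Q2 _ (by omega), mul_zero]
  have hP1z : ∀ s : ℕ, D.N1 < s → P1D D z s = 0 := by
    intro s hs
    unfold P1D
    exact Finset.sum_eq_zero fun m _ => by rw [hD.Q1 _ (by omega), mul_zero]
  have hP2z : ∀ s : ℕ, D.N2 < s → P2D D z s = 0 := by
    intro s hs
    unfold P2D
    exact Finset.sum_eq_zero fun m _ => by rw [hD.Q2 _ (by omega), mul_zero]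
  have h1 : ∑ v ∈ Fintype.piFinset (fun _ : Fin 8 => range 65), F8 D v * ∏ θ, GD D (kf D θ) (ex8 y z θ) (v θ) =
      ∑ a ∈ range 65, ∑ b ∈ range 65, ∑ c ∈ range 65, ∑ d ∈ range 65,
        GD D (fun i => D.k1 i * D.k1 i) y a * GD D (fun i => D.k1 i * D.k2 i) y b *
        GD D (fun i => D.k1 i * D.k2 i) y c * GD D (fun i => D.k2 i * D.k2 i) y d *
        (P1D D z (a + b) * P1D D z (a + c) * P2D D z (c + d) * P2D D z (b + d)) := by
    simp only [sum_pi_succ58, sum_pi_zero58]
    refine Finset.sum_congr rfl fun a _ => Finset.sum_congr rfl fun b _ => Finset.sum_congr rfl fun c _ =>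
      Finset.sum_congr rfl fun d _ => ?_
    rw [← hP1 (a + b), ← hP1 (a + c), ← hP2 (c + d), ← hP2 (b + d), ← four58]
    refine Finset.sum_congr rfl fun m _ => Finset.sum_congr rfl fun m' _ => Finset.sum_congr rfl fun n _ =>
      Finset.sum_congr rfl fun n' _ => ?_
    rw [Fin.prod_univ_eight]
    simp only [F8, kf, ex8, Matrix.cons_val]
    ring
  rw [h1]
  unfold LLD
  symm
  have hm1 : range (D.N1 + 1) ⊆ range 65 := range_mono (by omega)
  have hm2 : range (D.N2 + 1) ⊆ range 65 := range_mono (by omega)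
  refine (Finset.sum_congr rfl fun a _ => (Finset.sum_congr rfl fun b _ => (Finset.sum_congr rfl fun c _ =>
    Finset.sum_subset hm2 fun d _ hd => ?_).trans (Finset.sum_subset hm2 fun c _ hc => ?_)).trans
    (Finset.sum_subset hm2 fun b _ hb => ?_)).trans (Finset.sum_subset hm1 fun a _ ha => ?_)
  · rw [mem_range, not_lt] at hd
    rw [hP2z (c + d) (by omega)]; ring
  · rw [mem_range, not_lt] at hc
    exact Finset.sum_eq_zero fun d _ => by rw [hP2z (c + d) (by omega)]; ring
  · rw [mem_range, not_lt] at hb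
    exact Finset.sum_eq_zero fun c _ => Finset.sum_eq_zero fun d _ => by rw [hP2z (b + d) (by omega)]; ring
  · rw [mem_range, not_lt] at ha
    exact Finset.sum_eq_zero fun b _ => Finset.sum_eq_zero fun c _ => Finset.sum_eq_zero fun d _ => by
      rw [hP1z (a + b) (by omega)]; ring

end Pool.Agent.Helper58.HV
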