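import Pool.Agent.Helper25.HV.Defs
import Pool.Agent.Helper51.HG.WT
import Pool.Agent.Helper47.HV.RSa

/-!
# Large gaps, `λ = 13/5`: the sums over sets of primes of one kind

`sD A ind u n` is the sum over the sets `S ⊆ A` with total index `n` of `∏ u p`; for the primes of the resonator it
tends to the exponential coefficient `GD`.
-/

open Finset Filter Topology Polynomial MeasureTheory

namespace Pool.Agent.Helper58.HV

open Pool.Agent.Helper69.HG Pool.Agent.Helper51.HG Pool.Agent.Helper25.HV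
open Pool.Agent.Helper47.HV (sD)

lemma pairS_zero58 (A : Finset ℕ) (ind : ℕ → ℕ) (u : ℕ → ℝ) (n : ℕ) :
    pairS A ind u (fun _ => 0) (fun a b c => if a = n ∧ b = 0 ∧ c = 0 then 1 else 0) = sD A ind u n := by
  unfold pairS sD
  rw [Finset.sum_filter]
  refine Finset.sum_congr rfl fun S hS => ?_
  rw [Finset.sum_eq_single S]
  · rw [Finset.inter_self, Finset.sdiff_self]
    simp
  · intro S' _ hne
    have h : (S \ S').Nonempty ∨ (S' \ S).Nonempty := by
      by_contra h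
      rw [not_or, Finset.not_nonempty_iff_eq_empty, Finset.not_nonempty_iff_eq_empty, sdiff_eq_empty_iff_subset,
        sdiff_eq_empty_iff_subset] at h
      exact hne (Finset.Subset.antisymm h.2 h.1)
    rcases h with ⟨q, hq⟩ | ⟨q, hq⟩
    · rw [Finset.prod_eq_zero (s := S \ S') (f := fun _ => (0 : ℝ)) hq rfl]
      ring
    · rw [Finset.prod_eq_zero (s := S' \ S) (f := fun _ => (0 : ℝ)) hq rfl]
      ring
  · intro h
    exact absurd hS h

lemma PS_zero58 (P : ℝ[X]) {n : ℕ} (hn : n < 65) :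
    PS P 0 0 (fun a b c => if a = n ∧ b = 0 ∧ c = 0 then 1 else 0) = expc P n := by
  unfold PS
  rw [Finset.sum_eq_single n, Finset.sum_eq_single 0, Finset.sum_eq_single 0]
  · simp [expc_zero_poly]
  · intro c _ hc; simp [hc]
  · simp
  · intro b _ hb; simp [hb]
  · simp
  · intro a _ ha; simp [ha]
  · intro h; exact absurd (mem_range.2 hn) h

/-- comparison with the exponential coefficient -/
lemma sD_vs_expc {A : Finset ℕ} {ind : ℕ → ℕ} {u w : ℕ → ℝ} (hind : ∀ p ∈ A, 1 ≤ ind p)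
    (hu : ∀ p ∈ A, 0 ≤ u p ∧ u p ≤ w p ∧ 3 * w p ≤ 1) {n : ℕ} (hn : n < 65) :
    |sD A ind u n - expc (EP A ind u) n| ≤ Real.exp (3 * ∑ p ∈ A, w p) * (9 * ∑ p ∈ A, w p ^ 2) := by
  have h := pair_vs_prod ind u (fun _ => 0) w A hind
    (fun p hp => ⟨(hu p hp).1, (hu p hp).2.1, le_rfl, (hu p hp).1.trans (hu p hp).2.1, (hu p hp).2.2⟩)
    (fun a b c => if a = n ∧ b = 0 ∧ c = 0 then 1 else 0) 1 zero_le_one
    (fun a b c => by split_ifs <;> simp)
    (fun a b c h => by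
      show (if a = n ∧ b = 0 ∧ c = 0 then (1 : ℝ) else 0) = 0
      rw [if_neg]
      omega)
  have he : EP A ind (fun _ => (0 : ℝ)) = 0 := by simp [EP]
  rw [pairS_zero58, he, PS_zero58 _ hn, one_mul] at h
  exact h

/-! ### the primes of the resonator -/

/-- primes of index `i` -/
noncomputable def PID (D : Dat) (T : ℝ) (i : ℕ) : Finset ℕ := (AAD D T).filter (fun p => ixD D T p = i)

/-- `∑ p^(-2σ)` over the primes of index `i` -/
noncomputable def sID (D : Dat) (T σ : ℝ) (i : ℕ) : ℝ := ∑ p ∈ PID D T i, (p : ℝ) ^ (-2 * σ)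

lemma lo_pos {D : Dat} (h : Ok D) : 0 < D.lo := lt_of_lt_of_le (by norm_num) h.lo0

lemma S_pos {D : Dat} (h : Ok D) : (0 : ℝ) < D.S := by exact_mod_cast h.S0

lemma mem_AAD {D : Dat} {T : ℝ} {p : ℕ} : p ∈ AAD D T ↔ p ∈ Finset.Icc 1 ⌊T⌋₊ ∧ Adm D T p := by
  unfold AAD
  simp only [Finset.mem_filter]

lemma AAD_size {D : Dat} {T : ℝ} {p : ℕ} (hp : p ∈ AAD D T) : p.Prime ∧ T ^ D.lo < p :=
  ⟨(mem_AAD.1 hp).2.1, (mem_AAD.1 hp).2.2.1⟩

lemma AAD_ix {D : Dat} (h : Ok D) {T : ℝ} (hT : 1 < T) {p : ℕ} (hp : p ∈ AAD D T) :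
    1 ≤ ixD D T p ∧ ixD D T p ≤ D.B := by
  obtain ⟨h1, h2⟩ := AAD_size hp
  refine ⟨?_, (mem_AAD.1 hp).2.2.2⟩
  unfold ixD
  rw [Nat.one_le_ceil_iff]
  have hL : 0 < Real.log T := Real.log_pos hT
  have : 0 < Real.log p := Real.log_pos (by exact_mod_cast h1.one_lt)
  have := S_pos h
  positivity

lemma PID_eq {D : Dat} (hD : Ok D) {T : ℝ} (hT : 1 < T) {i : ℕ} (h1 : 1 ≤ i) (h2 : i ≤ D.B) :
    PID D T i = (Pool.Agent.Helper4.SH.PP T).filter (fun p =>
      max D.lo (((i : ℝ) - 1) / D.S) < Pool.Agent.Helper4.SH.yy T p ∧ Pool.Agent.Helper4.SH.yy T p ≤ (i : ℝ) / D.S) := by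
  have hL : 0 < Real.log T := Real.log_pos hT
  have hS := S_pos hD
  obtain ⟨j, rfl⟩ : ∃ j, i = j + 1 := ⟨i - 1, by omega⟩
  ext p
  unfold PID
  rw [Finset.mem_filter, mem_AAD, Finset.mem_filter]
  unfold Adm Pool.Agent.Helper4.SH.PP Pool.Agent.Helper4.SH.yy
  rw [Finset.mem_filter, mem_range, Nat.lt_succ_iff, Finset.mem_Icc, max_lt_iff]
  have e1 : ixD D T p = j + 1 ↔ ((j : ℝ) < D.S * Real.log p / Real.log T ∧ D.S * Real.log p / Real.log T ≤ (j : ℝ) + 1) := by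
    unfold ixD
    rw [Nat.ceil_eq_iff (Nat.succ_ne_zero j)]
    push_cast
    simp
  have e2 : ((j : ℝ) < D.S * Real.log p / Real.log T ↔ (((j + 1 : ℕ) : ℝ) - 1) / D.S < Real.log p / Real.log T) := by
    push_cast
    rw [mul_div_assoc, add_sub_cancel_right, div_lt_iff₀ hS, mul_comm (D.S : ℝ)]
  have e3 : (D.S * Real.log p / Real.log T ≤ (j : ℝ) + 1 ↔ Real.log p / Real.log T ≤ ((j + 1 : ℕ) : ℝ) / D.S) := by
    push_cast
    rw [mul_div_assoc, le_div_iff₀ hS, mul_comm (D.S : ℝ)]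
  constructor
  · rintro ⟨⟨⟨ha, hb⟩, hp, hlo, hB⟩, hi⟩
    rw [e1, e2, e3] at hi
    refine ⟨⟨hb, hp⟩, ⟨?_, hi.1⟩, hi.2⟩
    have hp0 : (0 : ℝ) < p := by exact_mod_cast hp.pos
    rw [lt_div_iff₀ hL]
    rw [Real.rpow_def_of_pos (by linarith)] at hlo
    have := (Real.lt_log_iff_exp_lt hp0).2 hlo
    linarith
  · rintro ⟨⟨hb, hp⟩, ⟨hlo, h3⟩, h4⟩
    have hi : ixD D T p = j + 1 := by rw [e1, e2, e3]; exact ⟨h3, h4⟩
    have hp0 : (0 : ℝ) < p := by exact_mod_cast hp.pos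
    refine ⟨⟨⟨hp.one_lt.le, hb⟩, hp, ?_, by rw [hi]; exact h2⟩, hi⟩
    rw [lt_div_iff₀ hL] at hlo
    rw [Real.rpow_def_of_pos (by linarith)]
    exact (Real.lt_log_iff_exp_lt hp0).1 (by linarith)

/-- the limit of the block sums -/
theorem tendsto_sID {D : Dat} (hD : Ok D) (x : ℝ) {i : ℕ} (h1 : 1 ≤ i) (h2 : i ≤ D.B) :
    Tendsto (fun T : ℝ => sID D T (1 / 2 + x / Real.log T) i) atTop (𝓝 (EiD D i (2 * x))) := by
  have hS := S_pos hD
  have hi1 : (1 : ℝ) ≤ i := by exact_mod_cast h1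
  have hBS : (3 : ℝ) * D.B ≤ D.S := by exact_mod_cast hD.BS
  have hiB : (i : ℝ) ≤ D.B := by exact_mod_cast h2
  set a : ℝ := max D.lo (((i : ℝ) - 1) / D.S) with ha
  have ha0 : 0 < a := lt_max_of_lt_left (lo_pos hD)
  have hab : a ≤ (i : ℝ) / D.S := by
    refine max_le (hD.loS.trans ?_) ?_
    · exact div_le_div_of_nonneg_right hi1 hS.le
    · exact div_le_div_of_nonneg_right (by linarith) hS.le
  have hmax : ∀ y : ℝ, 0 < max y a := fun y => lt_max_of_lt_right ha0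
  have hψ : Continuous (fun y : ℝ => Real.exp (-(2 * x * y)) / max y a) :=
    (by fun_prop : Continuous (fun y : ℝ => Real.exp (-(2 * x * y)))).div
      (continuous_id.max continuous_const) (fun y => (hmax y).ne')
  rw [Metric.tendsto_nhds]
  intro ε hε
  filter_upwards [Pool.Agent.Helper69.PQ.mert hψ ha0 (half_pos hε), eventually_gt_atTop (1 : ℝ)] with T hT hT1
  have hL : 0 < Real.log T := Real.log_pos hT1
  have h := hT a ((i : ℝ) / D.S) le_rfl hab (by
    rw [div_le_one hS]; linarith)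
  have hsum : ∑ p ∈ (Pool.Agent.Helper4.SH.PP T).filter (fun p => a < Pool.Agent.Helper4.SH.yy T p ∧
      Pool.Agent.Helper4.SH.yy T p ≤ (i : ℝ) / D.S), Pool.Agent.Helper4.SH.yy T p / p *
        (Real.exp (-(2 * x * Pool.Agent.Helper4.SH.yy T p)) / max (Pool.Agent.Helper4.SH.yy T p) a) =
      sID D T (1 / 2 + x / Real.log T) i := by
    unfold sID
    rw [PID_eq hD hT1 h1 h2, ← ha]
    refine Finset.sum_congr rfl fun p hp => ?_
    rw [mem_filter] at hp
    have hpp : p.Prime := by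
      have := hp.1
      unfold Pool.Agent.Helper4.SH.PP at this
      exact (mem_filter.1 this).2
    have hp0 : (0 : ℝ) < p := by exact_mod_cast hpp.pos
    have hy : a < Pool.Agent.Helper4.SH.yy T p := hp.2.1
    have hy0 : 0 < Pool.Agent.Helper4.SH.yy T p := ha0.trans hy
    rw [max_eq_left hy.le]
    have hlog : Real.log p = Pool.Agent.Helper4.SH.yy T p * Real.log T := by
      unfold Pool.Agent.Helper4.SH.yy
      field_simp
    have he : (p : ℝ) ^ (-2 * (1 / 2 + x / Real.log T)) =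
        (p : ℝ)⁻¹ * Real.exp (-(2 * x * Pool.Agent.Helper4.SH.yy T p)) := by
      have : (-2 * (1 / 2 + x / Real.log T)) = -1 + -(2 * x / Real.log T) := by ring
      rw [this, Real.rpow_add hp0, Real.rpow_neg_one, Real.rpow_def_of_pos hp0]
      congr 2
      rw [hlog]
      field_simp
    rw [he]
    field_simp
  have hint : ∫ y in a..((i : ℝ) / D.S), Real.exp (-(2 * x * y)) / max y a = EiD D i (2 * x) := by
    unfold EiD
    rw [← ha]
    refine intervalIntegral.integral_congr fun y hy => ?_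
    rw [Set.uIcc_of_le hab] at hy
    have hy1 : max y a = y := max_eq_left hy.1
    show Real.exp (-(2 * x * y)) / max y a = _
    rw [hy1]
  rw [hsum, hint] at h
  rw [Real.dist_eq]
  exact lt_of_le_of_lt h (half_lt_self hε)

lemma polD_coeff (D : Dat) (u : ℕ → ℝ) (m : ℕ) : (polD D u).coeff m = if 1 ≤ m ∧ m ≤ D.B then u m else 0 := by
  unfold polD
  rw [finsetSum_coeff]
  simp only [coeff_C_mul, coeff_X_pow, mul_ite, mul_one, mul_zero]
  split_ifs with h
  · rw [Finset.sum_eq_single m]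
    · rw [if_pos rfl]
    · intro b _ hb
      rw [if_neg (fun h => hb h.symm)]
    · intro h'
      exact absurd (Finset.mem_Icc.2 h) h'
  · refine Finset.sum_eq_zero fun b hb => ?_
    rw [Finset.mem_Icc] at hb
    rw [if_neg]
    rintro rfl
    exact h hb

lemma polD_zero (D : Dat) (u : ℕ → ℝ) : (polD D u).coeff 0 = 0 := by
  rw [polD_coeff, if_neg (by omega)]

/-- continuity of the exponential coefficients -/
theorem tendsto_expcD (D : Dat) {ι : Type*} {F : Filter ι} {u : ι → ℕ → ℝ} {u₀ : ℕ → ℝ}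
    (h : ∀ j, 1 ≤ j → j ≤ D.B → Tendsto (fun t => u t j) F (𝓝 (u₀ j))) (N : ℕ) :
    Tendsto (fun t => expc (polD D (u t)) N) F (𝓝 (expc (polD D u₀) N)) := by
  have hco : ∀ m, Tendsto (fun t => (polD D (u t)).coeff m) F (𝓝 ((polD D u₀).coeff m)) := by
    intro m
    simp only [polD_coeff]
    split_ifs with hm
    · exact h m hm.1 hm.2
    · exact tendsto_const_nhds
  have hrec : ∀ (w : ℕ → ℝ) (n : ℕ), expc (polD D w) (n + 1) =
      (∑ m ∈ range (n + 1), ((m : ℝ) + 1) * (polD D w).coeff (m + 1) * expc (polD D w) (n - m)) / ((n : ℝ) + 1) := by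
    intro w n
    rw [← expc_rec (polD_zero D w) n]
    have : ((n : ℝ) + 1) ≠ 0 := by positivity
    field_simp
  induction N using Nat.strong_induction_on with
  | _ N ih =>
    rcases N with _ | n
    · simp only [expc_zero]
      exact tendsto_const_nhds
    · simp only [hrec]
      refine Tendsto.div_const (tendsto_finsetSum _ fun m hm => ?_) _
      exact (tendsto_const_nhds.mul (hco (m + 1))).mul (ih (n - m) (by omega))

/-- grouping by the index -/
lemma sum_AAD {M : Type*} [AddCommMonoid M] {D : Dat} (hD : Ok D) {T : ℝ} (hT : 1 < T) (f : ℕ → M) :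
    ∑ p ∈ AAD D T, f p = ∑ i ∈ Finset.Icc 1 D.B, ∑ p ∈ PID D T i, f p := by
  rw [← Finset.sum_fiberwise_of_maps_to (s := AAD D T) (t := Finset.Icc 1 D.B) (g := ixD D T)
    (fun p hp => Finset.mem_Icc.2 (AAD_ix hD hT hp)) f]
  rfl

lemma EP_AAD {D : Dat} (hD : Ok D) {T : ℝ} (hT : 1 < T) (k : ℕ → ℝ) (σ : ℝ) :
    EP (AAD D T) (ixD D T) (fun p => k (ixD D T p) * (p : ℝ) ^ (-2 * σ)) = polD D (fun i => k i * sID D T σ i) := by
  unfold EP polD
  rw [sum_AAD hD hT]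
  refine Finset.sum_congr rfl fun i _ => ?_
  unfold sID
  dsimp only
  rw [Finset.mul_sum, map_sum, Finset.sum_mul]
  refine Finset.sum_congr rfl fun p hp => ?_
  unfold PID at hp
  rw [(Finset.mem_filter.1 hp).2]

/-- the sum of the reciprocals is bounded -/
lemma AAD_bdd {D : Dat} (hD : Ok D) : ∃ B : ℝ, 0 ≤ B ∧ ∀ᶠ T : ℝ in atTop, ∑ p ∈ AAD D T, 1 / (p : ℝ) ≤ B := by
  have h : Tendsto (fun T : ℝ => ∑ j ∈ Finset.Icc 1 D.B, sID D T (1 / 2 + 0 / Real.log T) j) atTop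
      (𝓝 (∑ j ∈ Finset.Icc 1 D.B, EiD D j (2 * 0))) := by
    refine tendsto_finsetSum _ fun j hj => ?_
    rw [Finset.mem_Icc] at hj
    exact tendsto_sID hD 0 hj.1 hj.2
  refine ⟨|∑ j ∈ Finset.Icc 1 D.B, EiD D j (2 * 0)| + 1, by positivity, ?_⟩
  filter_upwards [h.eventually_lt_const (u := |∑ j ∈ Finset.Icc 1 D.B, EiD D j (2 * 0)| + 1)
    (by linarith [le_abs_self (∑ j ∈ Finset.Icc 1 D.B, EiD D j (2 * 0))]), eventually_gt_atTop (1 : ℝ)] with T hT hT1
  rw [sum_AAD hD hT1]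
  refine le_trans (le_of_eq ?_) hT.le
  refine Finset.sum_congr rfl fun j _ => ?_
  unfold sID
  refine Finset.sum_congr rfl fun p _ => ?_
  have : (-2 * (1 / 2 + 0 / Real.log T) : ℝ) = -1 := by norm_num
  rw [this, Real.rpow_neg_one, one_div]

/-- the sum of the squares is small -/
lemma AAD_sq {D : Dat} {T B : ℝ} (hT : 1 < T) (hB : ∑ p ∈ AAD D T, 1 / (p : ℝ) ≤ B) (c : ℝ) :
    ∑ p ∈ AAD D T, (c / p) ^ 2 ≤ c ^ 2 * B * (T ^ D.lo)⁻¹ := by
  have h3 : 0 < T ^ D.lo := Real.rpow_pos_of_pos (by linarith) _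
  have h1 : ∀ p ∈ AAD D T, (c / (p : ℝ)) ^ 2 ≤ c ^ 2 * (T ^ D.lo)⁻¹ * (1 / p) := by
    intro p hp
    have h2 := (AAD_size hp).2
    have hp0 : (0 : ℝ) < p := h3.trans h2
    have h4 : (p : ℝ)⁻¹ ≤ (T ^ D.lo)⁻¹ := inv_anti₀ h3 h2.le
    have h5 : (0 : ℝ) < (p : ℝ)⁻¹ := inv_pos.2 hp0
    have e1 : (c / (p : ℝ)) ^ 2 = c ^ 2 * (p : ℝ)⁻¹ * (p : ℝ)⁻¹ := by
      rw [div_eq_mul_inv]; ring
    rw [e1, one_div]
    refine mul_le_mul_of_nonneg_right ?_ h5.le
    exact mul_le_mul_of_nonneg_left h4 (sq_nonneg c)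
  refine (Finset.sum_le_sum h1).trans ?_
  rw [← Finset.mul_sum]
  have h6 : 0 ≤ c ^ 2 * (T ^ D.lo)⁻¹ := by positivity
  calc c ^ 2 * (T ^ D.lo)⁻¹ * ∑ p ∈ AAD D T, 1 / (p : ℝ) ≤ c ^ 2 * (T ^ D.lo)⁻¹ * B :=
        mul_le_mul_of_nonneg_left hB h6
    _ = _ := by ring

lemma AAD_pow {D : Dat} {T : ℝ} {p : ℕ} (hp : p ∈ AAD D T) {s : ℝ} (hs : 1 / 2 ≤ s) :
    0 ≤ (p : ℝ) ^ (-2 * s) ∧ (p : ℝ) ^ (-2 * s) ≤ 1 / p := by
  have hp1 : (1 : ℝ) ≤ p := by exact_mod_cast (AAD_size hp).1.one_lt.le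
  have hp0 : (0 : ℝ) < p := by linarith
  refine ⟨by positivity, ?_⟩
  rw [one_div, ← Real.rpow_neg_one]
  exact Real.rpow_le_rpow_of_exponent_le hp1 (by linarith)

/-- **the limit of one kind** -/
theorem tendsto_sD {D : Dat} (hD : Ok D) {k : ℕ → ℝ} (hk : ∀ i, 0 ≤ k i ∧ k i ≤ 4) {x : ℝ} (hx : 0 ≤ x) {n : ℕ}
    (hn : n < 65) :
    Tendsto (fun T : ℝ => sD (AAD D T) (ixD D T) (fun p => k (ixD D T p) * (p : ℝ) ^ (-2 * (1 / 2 + x / Real.log T))) n)
      atTop (𝓝 (GD D k (2 * x) n)) := by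
  obtain ⟨B, hB0, hB⟩ := AAD_bdd hD
  have h1 : Tendsto (fun T : ℝ => expc (polD D (fun i => k i * sID D T (1 / 2 + x / Real.log T) i)) n) atTop
      (𝓝 (GD D k (2 * x) n)) := by
    unfold GD
    exact tendsto_expcD D (fun j h1 h2 => tendsto_const_nhds.mul (tendsto_sID hD x h1 h2)) n
  have h2 : Tendsto (fun T : ℝ =>
      sD (AAD D T) (ixD D T) (fun p => k (ixD D T p) * (p : ℝ) ^ (-2 * (1 / 2 + x / Real.log T))) n -
        expc (polD D (fun i => k i * sID D T (1 / 2 + x / Real.log T) i)) n) atTop (𝓝 0) := by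
    have he : Tendsto (fun T : ℝ => Real.exp (3 * (4 * B)) * (9 * (4 ^ 2 * B * (T ^ D.lo)⁻¹))) atTop (𝓝 0) := by
      have h3 : Tendsto (fun T : ℝ => (T ^ D.lo)⁻¹) atTop (𝓝 0) :=
        (tendsto_rpow_atTop (lo_pos hD)).inv_tendsto_atTop
      have := h3.const_mul (Real.exp (3 * (4 * B)) * (9 * (4 ^ 2 * B)))
      rw [mul_zero] at this
      refine this.congr fun T => ?_
      ring
    refine squeeze_zero_norm' ?_ he
    filter_upwards [hB, eventually_gt_atTop (1 : ℝ),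
      (tendsto_rpow_atTop (lo_pos hD)).eventually_ge_atTop 12] with T hBT hT h12
    rw [Real.norm_eq_abs, ← EP_AAD hD hT]
    have hσ : (1 / 2 : ℝ) ≤ 1 / 2 + x / Real.log T := by
      have := Real.log_pos hT
      have : 0 ≤ x / Real.log T := by positivity
      linarith
    have h := sD_vs_expc (A := AAD D T) (ind := ixD D T)
      (u := fun p => k (ixD D T p) * (p : ℝ) ^ (-2 * (1 / 2 + x / Real.log T))) (w := fun p => 4 / (p : ℝ))
      (fun p hp => (AAD_ix hD hT hp).1)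
      (fun p hp => by
        obtain ⟨g1, g2⟩ := AAD_pow hp hσ
        obtain ⟨k1, k2⟩ := hk (ixD D T p)
        have hp12 : (12 : ℝ) < p := h12.trans_lt (AAD_size hp).2
        have hp0 : (0 : ℝ) < p := by linarith
        refine ⟨mul_nonneg k1 g1, ?_, ?_⟩
        · have : (4 : ℝ) / p = 4 * (1 / p) := by ring
          rw [this]
          exact mul_le_mul k2 g2 g1 (by norm_num)
        · rw [← mul_div_assoc, div_le_one hp0]; linarith) hn
    refine h.trans ?_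
    have hs1 : ∑ p ∈ AAD D T, (4 : ℝ) / p ≤ 4 * B := by
      have : ∑ p ∈ AAD D T, (4 : ℝ) / p = 4 * ∑ p ∈ AAD D T, 1 / (p : ℝ) := by
        rw [Finset.mul_sum]
        exact Finset.sum_congr rfl fun p _ => by ring
      rw [this]; linarith
    have hs2 := AAD_sq (D := D) hT hBT 4
    have hs3 : 0 ≤ ∑ p ∈ AAD D T, ((4 : ℝ) / p) ^ 2 := Finset.sum_nonneg fun _ _ => sq_nonneg _
    gcongr
  have := h2.add h1
  simpa using this

end Pool.Agent.Helper58.HV
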